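import Mathlib
import Pool.Agent.Helper94.Abc.Basic

/-! Points of a curve modulo `w ^ 3` in one residue class modulo `w` (section 4 of EN). -/

set_option autoImplicit false

open Finset

namespace Pool.Agent.Helper76.EN

/-- `∑ gcd (D, w)` over `1 ≤ D ≤ Y`. -/
theorem sum_gcd_le (w Y : ℕ) (hw : 0 < w) :
    ∑ D ∈ Icc 1 Y, Nat.gcd D w ≤ Y * w.divisors.card := by
  have h1 : ∀ D ∈ Icc 1 Y, Nat.gcd D w ≤ ∑ g ∈ w.divisors.filter (fun g => g ∣ D), g := by
    intro D hD
    have hg : Nat.gcd D w ∈ w.divisors.filter (fun g => g ∣ D) := by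
      rw [mem_filter, Nat.mem_divisors]
      exact ⟨⟨Nat.gcd_dvd_right D w, hw.ne'⟩, Nat.gcd_dvd_left D w⟩
    exact single_le_sum (f := fun g : ℕ => g) (fun _ _ => Nat.zero_le _) hg
  calc ∑ D ∈ Icc 1 Y, Nat.gcd D w
      ≤ ∑ D ∈ Icc 1 Y, ∑ g ∈ w.divisors.filter (fun g => g ∣ D), g := sum_le_sum h1
    _ = ∑ D ∈ Icc 1 Y, ∑ g ∈ w.divisors, if g ∣ D then g else 0 := by
        apply sum_congr rfl
        intro D _
        rw [sum_filter]
    _ = ∑ g ∈ w.divisors, ∑ D ∈ Icc 1 Y, if g ∣ D then g else 0 := sum_comm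
    _ ≤ ∑ g ∈ w.divisors, Y := by
        apply sum_le_sum
        intro g hg
        rw [← sum_filter, sum_const, smul_eq_mul]
        have hg0 : 0 < g := Nat.pos_of_mem_divisors hg
        have h2 : ((Icc 1 Y).filter (fun D => g ∣ D)).card ≤ Y / g := by
          have h3 := Nat.Ioc_filter_dvd_card_eq_div Y g
          have h4 : Icc 1 Y = Ioc 0 Y := by
            ext x
            simp only [mem_Icc, mem_Ioc]
            omega
          rw [h4]
          exact le_of_eq h3
        calc _ ≤ (Y / g) * g := Nat.mul_le_mul_right _ h2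
          _ ≤ Y := Nat.div_mul_le_self Y g
    _ = Y * w.divisors.card := by
        rw [sum_const, smul_eq_mul, mul_comm]

/-- Counting points with the second difference property. -/
theorem class_count {w : ℕ} (hw : 0 < w) (S : Finset (ℤ × ℤ)) (N0 : ℤ) (A : ℕ)
    (hA : A ≤ w ^ 2)
    (hn : ∀ p ∈ S, N0 ≤ p.1 ∧ p.1 < N0 + A)
    (hcl : ∀ p ∈ S, ∀ q ∈ S, (w : ℤ) ∣ q.1 - p.1)
    (hinj : ∀ p ∈ S, ∀ q ∈ S, p.1 = q.1 → p = q)
    (hb : ∀ p ∈ S, ∀ q ∈ S, ∀ p' ∈ S, ∀ q' ∈ S, q.1 - p.1 = q'.1 - p'.1 →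
      (w : ℤ) ^ 2 ∣ (q'.2 - p'.2) - (q.2 - p.2))
    (hR : ∀ p ∈ S, ∀ q ∈ S, |q.2 - p.2| < (w : ℤ) ^ 2)
    (hc : ∀ p ∈ S, ∀ q ∈ S, ∀ p' ∈ S, ∀ q' ∈ S, q.1 - p.1 = q'.1 - p'.1 →
      q.2 - p.2 = q'.2 - p'.2 → (w : ℤ) ^ 3 ∣ (q.1 - p.1) * (p'.1 - p.1)) :
    (S.card : ℝ) ≤ 1 + Real.sqrt (12 * ((A : ℝ) / w) * w.divisors.card) := by
  classical
  have hwZ : (0 : ℤ) < w := by exact_mod_cast hw
  have hwR : (0 : ℝ) < w := by exact_mod_cast hw
  set T : Finset ((ℤ × ℤ) × (ℤ × ℤ)) := S.offDiag with hT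
  set Y : ℕ := A / w with hY
  -- one difference
  have hfib : ∀ x y : ℤ, (T.filter (fun t => t.2.1 - t.1.1 = x ∧ t.2.2 - t.1.2 = y)).card ≤
      2 * Nat.gcd (x / w).natAbs w := by
    intro x y
    set F := T.filter (fun t => t.2.1 - t.1.1 = x ∧ t.2.2 - t.1.2 = y) with hF
    rcases F.eq_empty_or_nonempty with h0 | ⟨t0, ht0⟩
    · rw [h0]; simp
    have ht0' := ht0
    rw [hF, mem_filter, hT, mem_offDiag] at ht0'
    obtain ⟨⟨hp0, hq0, hne0⟩, hx0, hy0⟩ := ht0'
    obtain ⟨D, hD⟩ := hcl _ hp0 _ hq0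
    have hxD : x / w = D := by
      rw [← hx0, hD]
      exact Int.mul_ediv_cancel_left _ hwZ.ne'
    have hD0 : D ≠ 0 := by
      intro h
      apply hne0
      apply hinj _ hp0 _ hq0
      rw [h, mul_zero] at hD
      linarith
    rw [hxD]
    set g := Nat.gcd D.natAbs w with hg
    have hg0 : 0 < g := Nat.gcd_pos_of_pos_right _ hw
    have hgR : (1 : ℝ) ≤ g := by exact_mod_cast hg0
    have hgap : ∀ i ∈ F, ∀ j ∈ F, i ≠ j →
        ((w : ℝ) ^ 2 / g) ≤ |((i.1.1 : ℤ) : ℝ) - ((j.1.1 : ℤ) : ℝ)| := by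
      intro i hi j hj hij
      rw [hF, mem_filter, hT, mem_offDiag] at hi hj
      obtain ⟨⟨hpi, hqi, -⟩, hxi, hyi⟩ := hi
      obtain ⟨⟨hpj, hqj, -⟩, hxj, hyj⟩ := hj
      have h3 := hc _ hpi _ hqi _ hpj _ hqj (by rw [hxi, hxj]) (by rw [hyi, hyj])
      obtain ⟨d, hd⟩ := hcl _ hpi _ hpj
      have hd0 : d ≠ 0 := by
        intro h
        rw [h, mul_zero] at hd
        have h4 : i.1 = j.1 := hinj _ hpi _ hpj (by linarith)
        apply hij
        have h5 : i.2 = j.2 := by
          apply hinj _ hqi _ hqj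
          have := hxi.trans hxj.symm
          rw [h4] at this
          linarith
        exact Prod.ext h4 h5
      have h6 : (w : ℤ) ∣ D * d := by
        rw [hxi, ← hx0, hD, hd] at h3
        obtain ⟨k, hk⟩ := h3
        refine ⟨k, ?_⟩
        have h7 : (w : ℤ) ^ 2 * (D * d) = (w : ℤ) ^ 2 * (w * k) := by
          rw [show (w : ℤ) ^ 2 * (D * d) = w * D * (w * d) by ring, hk]
          ring
        exact mul_left_cancel₀ (pow_ne_zero 2 hwZ.ne') h7
      have h8 : w ∣ g * d.natAbs := by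
        have h9 : w ∣ D.natAbs * d.natAbs := by
          rw [← Int.natAbs_mul]
          exact Int.natCast_dvd.1 h6
        have h10 : w ∣ w * d.natAbs := dvd_mul_right _ _
        have h11 := Nat.dvd_gcd h9 h10
        rw [Nat.gcd_mul_right] at h11
        exact h11
      have h12 : w ≤ g * d.natAbs := Nat.le_of_dvd
        (Nat.mul_pos hg0 (Int.natAbs_pos.2 hd0)) h8
      have h13 : (w : ℝ) ≤ g * |(d : ℝ)| := by
        have : ((d.natAbs : ℕ) : ℝ) = |(d : ℝ)| := by
          rw [Nat.cast_natAbs]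
          push_cast
          rfl
        rw [← this]
        exact_mod_cast h12
      have h14 : ((i.1.1 : ℤ) : ℝ) - ((j.1.1 : ℤ) : ℝ) = -(w * d) := by
        have : (j.1.1 : ℤ) - i.1.1 = w * d := hd
        have h15 : ((j.1.1 : ℤ) : ℝ) - ((i.1.1 : ℤ) : ℝ) = w * d := by exact_mod_cast this
        linarith
      rw [h14, abs_neg, abs_mul, abs_of_pos hwR, div_le_iff₀ (by linarith)]
      nlinarith
    have hA0 : (0 : ℝ) ≤ A := Nat.cast_nonneg A
    have hcount := Helper94.Abc.gap_card F (fun i => ((i.1.1 : ℤ) : ℝ)) (u := (N0 : ℝ))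
      (v := (N0 : ℝ) + A) (G := (w : ℝ) ^ 2 / g) (by positivity) (by linarith) (by
        intro i hi
        rw [hF, mem_filter, hT, mem_offDiag] at hi
        have h1 := hn _ hi.1.1
        constructor
        · exact_mod_cast h1.1
        · have : ((i.1.1 : ℤ) : ℝ) < ((N0 + A : ℤ) : ℝ) := by exact_mod_cast h1.2
          push_cast at this
          exact this.le) hgap
    have h16 : ((N0 : ℝ) + A - N0) / ((w : ℝ) ^ 2 / g) ≤ g := by
      rw [div_le_iff₀ (by positivity)]
      have h17 : (A : ℝ) ≤ (w : ℝ) ^ 2 := by exact_mod_cast hA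
      have h18 : (g : ℝ) * ((w : ℝ) ^ 2 / g) = (w : ℝ) ^ 2 := by
        field_simp
      rw [h18]
      linarith
    have h19 : (F.card : ℝ) ≤ ((2 * g : ℕ) : ℝ) := by
      push_cast
      linarith
    exact_mod_cast h19
  -- one first difference
  have hfib1 : ∀ x : ℤ, (T.filter (fun t => t.2.1 - t.1.1 = x)).card ≤
      3 * (2 * Nat.gcd (x / w).natAbs w) := by
    intro x
    set F := T.filter (fun t => t.2.1 - t.1.1 = x) with hF
    rcases F.eq_empty_or_nonempty with h0 | ⟨t0, ht0⟩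
    · rw [h0]; simp
    have ht0' := ht0
    rw [hF, mem_filter, hT, mem_offDiag] at ht0'
    obtain ⟨⟨hp0, hq0, hne0⟩, hx0⟩ := ht0'
    set y0 := t0.2.2 - t0.1.2 with hy0
    have hsub : F ⊆ (({y0, y0 + (w : ℤ) ^ 2, y0 - (w : ℤ) ^ 2} : Finset ℤ)).biUnion
        (fun y => T.filter (fun t => t.2.1 - t.1.1 = x ∧ t.2.2 - t.1.2 = y)) := by
      intro t ht
      have ht' := ht
      rw [hF, mem_filter, hT, mem_offDiag] at ht'
      obtain ⟨⟨hp, hq, hne⟩, hx⟩ := ht'
      have h1 := hb _ hp0 _ hq0 _ hp _ hq (by rw [hx0, hx])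
      have h2 := hR _ hp _ hq
      have h3 := hR _ hp0 _ hq0
      obtain ⟨k, hk⟩ := h1
      rw [mem_biUnion]
      refine ⟨t.2.2 - t.1.2, ?_, ?_⟩
      · have hw2 : (0 : ℤ) < (w : ℤ) ^ 2 := by positivity
        rw [abs_lt] at h2 h3
        have hk1 : k < 2 := by
          by_contra hcon
          push Not at hcon
          nlinarith
        have hk2 : -2 < k := by
          by_contra hcon
          push Not at hcon
          nlinarith
        have hk3 : k = 0 ∨ k = 1 ∨ k = -1 := by omega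
        rcases hk3 with rfl | rfl | rfl
        · rw [mem_insert]; left; linarith
        · rw [mem_insert, mem_insert]; right; left; linarith
        · rw [mem_insert, mem_insert, mem_singleton]; right; right; linarith
      · rw [mem_filter]
        exact ⟨(mem_filter.1 ht).1, hx, rfl⟩
    calc F.card ≤ _ := card_le_card hsub
      _ ≤ ∑ y ∈ ({y0, y0 + (w : ℤ) ^ 2, y0 - (w : ℤ) ^ 2} : Finset ℤ),
            (T.filter (fun t => t.2.1 - t.1.1 = x ∧ t.2.2 - t.1.2 = y)).card := card_biUnion_le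
      _ ≤ ∑ _y ∈ ({y0, y0 + (w : ℤ) ^ 2, y0 - (w : ℤ) ^ 2} : Finset ℤ),
            2 * Nat.gcd (x / w).natAbs w := sum_le_sum fun y _ => hfib x y
      _ ≤ 3 * (2 * Nat.gcd (x / w).natAbs w) := by
          rw [sum_const, smul_eq_mul]
          exact Nat.mul_le_mul_right _ card_le_three
  -- sum over the first differences
  have hTcard : T.card ≤ 12 * (Y * w.divisors.card) := by
    have hmap : ∀ t ∈ T, ((t.2.1 - t.1.1) / w).natAbs ∈ Icc 1 Y := by
      intro t ht
      rw [hT, mem_offDiag] at ht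
      obtain ⟨hp, hq, hne⟩ := ht
      obtain ⟨D, hD⟩ := hcl _ hp _ hq
      have hxD : (t.2.1 - t.1.1) / w = D := by
        rw [hD]
        exact Int.mul_ediv_cancel_left _ hwZ.ne'
      have hD0 : D ≠ 0 := by
        intro h
        apply hne
        apply hinj _ hp _ hq
        rw [h, mul_zero] at hD
        linarith
      rw [hxD, mem_Icc]
      refine ⟨Int.natAbs_pos.2 hD0, ?_⟩
      rw [hY, Nat.le_div_iff_mul_le hw]
      have h1 := hn _ hp
      have h2 := hn _ hq
      have h3 : |(w : ℤ) * D| ≤ A := by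
        rw [← hD, abs_le]
        constructor <;> linarith
      rw [abs_mul, abs_of_pos hwZ, Int.abs_eq_natAbs] at h3
      have h4 : ((D.natAbs * w : ℕ) : ℤ) ≤ ((A : ℕ) : ℤ) := by
        rw [Nat.cast_mul, mul_comm]
        exact h3
      exact Int.ofNat_le.1 h4
    calc T.card = ∑ D ∈ Icc 1 Y, (T.filter (fun t : (ℤ × ℤ) × (ℤ × ℤ) => ((t.2.1 - t.1.1) / (w : ℤ)).natAbs = D)).card :=
          card_eq_sum_card_fiberwise hmap
      _ ≤ ∑ D ∈ Icc 1 Y, 12 * Nat.gcd D w := by
          apply sum_le_sum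
          intro D hD
          have hsub : T.filter (fun t : (ℤ × ℤ) × (ℤ × ℤ) => ((t.2.1 - t.1.1) / (w : ℤ)).natAbs = D) ⊆
              T.filter (fun t => t.2.1 - t.1.1 = (w : ℤ) * D) ∪
              T.filter (fun t => t.2.1 - t.1.1 = (w : ℤ) * (-D)) := by
            intro t ht
            rw [mem_filter] at ht
            obtain ⟨htT, htD⟩ := ht
            have htT' := htT
            rw [hT, mem_offDiag] at htT'
            obtain ⟨hp, hq, hne⟩ := htT'
            obtain ⟨D', hD'⟩ := hcl _ hp _ hq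
            have hxD : (t.2.1 - t.1.1) / w = D' := by
              rw [hD']
              exact Int.mul_ediv_cancel_left _ hwZ.ne'
            rw [hxD] at htD
            rw [mem_union, mem_filter, mem_filter]
            rcases Int.natAbs_eq D' with h | h
            · left
              refine ⟨htT, ?_⟩
              rw [hD', h, htD]
            · right
              refine ⟨htT, ?_⟩
              rw [hD', h, htD]
          have e1 : ((w : ℤ) * D / w).natAbs = D := by
            rw [Int.mul_ediv_cancel_left _ hwZ.ne']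
            simp
          have e2 : ((w : ℤ) * (-D) / w).natAbs = D := by
            rw [Int.mul_ediv_cancel_left _ hwZ.ne']
            simp
          have h1 := hfib1 ((w : ℤ) * D)
          have h2 := hfib1 ((w : ℤ) * (-D))
          rw [e1] at h1
          rw [e2] at h2
          calc _ ≤ _ := card_le_card hsub
            _ ≤ _ := card_union_le _ _
            _ ≤ 3 * (2 * Nat.gcd D w) + 3 * (2 * Nat.gcd D w) := Nat.add_le_add h1 h2
            _ = 12 * Nat.gcd D w := by ring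
      _ = 12 * ∑ D ∈ Icc 1 Y, Nat.gcd D w := by rw [mul_sum]
      _ ≤ 12 * (Y * w.divisors.card) := Nat.mul_le_mul_left _ (sum_gcd_le w Y hw)
  -- conclusion
  have hTS : T.card = S.card * S.card - S.card := by rw [hT, offDiag_card]
  rcases Nat.eq_zero_or_pos S.card with h0 | hpos
  · rw [h0]
    have := Real.sqrt_nonneg (12 * ((A : ℝ) / w) * w.divisors.card)
    push_cast
    linarith
  have h1 : (S.card : ℝ) * S.card - S.card ≤ 12 * ((A : ℝ) / w) * w.divisors.card := by
    have h2 : S.card * S.card ≤ 12 * (Y * w.divisors.card) + S.card := by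
      rw [hTS] at hTcard
      omega
    have h3 : (S.card : ℝ) * S.card ≤ 12 * ((Y : ℝ) * w.divisors.card) + S.card := by
      exact_mod_cast h2
    have h4 : (Y : ℝ) ≤ (A : ℝ) / w := Nat.cast_div_le
    have h5 : (Y : ℝ) * w.divisors.card ≤ ((A : ℝ) / w) * w.divisors.card :=
      mul_le_mul_of_nonneg_right h4 (Nat.cast_nonneg _)
    linarith
  have h6 : (1 : ℝ) ≤ S.card := by exact_mod_cast hpos
  have h7 : ((S.card : ℝ) - 1) ^ 2 ≤ 12 * ((A : ℝ) / w) * w.divisors.card := by nlinarith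
  have h8 := Real.le_sqrt_of_sq_le h7
  linarith

end Pool.Agent.Helper76.EN
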