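import Mathlib
import Pool.Agent.Helper94.Abc.Basic
import Pool.Agent.Helper26.Abc2.Roots

/-! DIR: coprime pairs with `n ^ j = c l ^ j` modulo `m` (section 1 of EN). -/

set_option autoImplicit false

open Finset

namespace Pool.Agent.Helper76.EN

/-- different reduced fractions -/
theorem cross_ne {n l n' l' : ℕ} (hn : 0 < n) (_hl : 0 < l) (_hn' : 0 < n') (_hl' : 0 < l')
    (h : Nat.Coprime n l) (h' : Nat.Coprime n' l') (hne : (n, l) ≠ (n', l')) :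
    (n : ℤ) * l' - n' * l ≠ 0 := by
  intro h0
  apply hne
  have h1 : n * l' = n' * l := by
    have : (n : ℤ) * l' = n' * l := by linarith
    exact_mod_cast this
  have h2 : n ∣ n' := by
    have : n ∣ n' * l := ⟨l', h1.symm⟩
    exact h.dvd_of_dvd_mul_right this
  have h3 : n' ∣ n := by
    have : n' ∣ n * l' := ⟨l, h1⟩
    exact h'.dvd_of_dvd_mul_right this
  have h4 : n = n' := Nat.dvd_antisymm h2 h3
  subst h4
  have h5 : l' = l := Nat.eq_of_mul_eq_mul_left hn h1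
  rw [h5]

/-- one class, one dyadic block -/
theorem dir_block (m P : ℕ) (hm : 0 < m) (i : ℕ) (S : Finset (ℕ × ℕ))
    (hS : ∀ p ∈ S, 0 < p.1 ∧ p.1 ≤ P ∧ 2 ^ i ≤ p.2 ∧ p.2 < 2 ^ (i + 1) ∧ Nat.Coprime p.1 p.2)
    (hcl : ∀ p ∈ S, ∀ q ∈ S, (m : ℤ) ∣ (p.1 : ℤ) * q.2 - q.1 * p.2) :
    (S.card : ℝ) ≤ 1 + 4 * P * 2 ^ i / m := by
  have hmR : (0 : ℝ) < m := by exact_mod_cast hm
  have h2 : (0 : ℝ) < 2 ^ i := by positivity
  have hgap := Helper94.Abc.gap_card S (fun p => (p.1 : ℝ) / p.2) (u := 0) (v := P / 2 ^ i)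
    (G := (m : ℝ) / (4 * (2 ^ i) ^ 2)) (by positivity) (by positivity) (by
      intro p hp
      obtain ⟨a1, a2, a3, a4, a5⟩ := hS p hp
      have a3' : (2 : ℝ) ^ i ≤ p.2 := by exact_mod_cast a3
      have a2' : (p.1 : ℝ) ≤ P := by exact_mod_cast a2
      constructor
      · positivity
      · gcongr) (by
      intro p hp q hq hpq
      obtain ⟨a1, a2, a3, a4, a5⟩ := hS p hp
      obtain ⟨b1, b2, b3, b4, b5⟩ := hS q hq
      have a6 : 0 < p.2 := lt_of_lt_of_le (by positivity) a3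
      have b6 : 0 < q.2 := lt_of_lt_of_le (by positivity) b3
      have c1 := cross_ne a1 a6 b1 b6 a5 b5 (fun h => hpq h)
      have c2 : (m : ℤ) ≤ |(p.1 : ℤ) * q.2 - q.1 * p.2| :=
        Int.le_of_dvd (abs_pos.2 c1) ((dvd_abs _ _).2 (hcl p hp q hq))
      have c3 : (m : ℝ) ≤ |(p.1 : ℝ) * q.2 - q.1 * p.2| := by exact_mod_cast c2
      have a6' : (0 : ℝ) < p.2 := by exact_mod_cast a6
      have b6' : (0 : ℝ) < q.2 := by exact_mod_cast b6
      have a4' : (p.2 : ℝ) ≤ 2 * 2 ^ i := by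
        have : p.2 ≤ 2 ^ (i + 1) := a4.le
        have h : ((p.2 : ℕ) : ℝ) ≤ ((2 ^ (i + 1) : ℕ) : ℝ) := by exact_mod_cast this
        push_cast at h
        rw [pow_succ] at h
        linarith
      have b4' : (q.2 : ℝ) ≤ 2 * 2 ^ i := by
        have : q.2 ≤ 2 ^ (i + 1) := b4.le
        have h : ((q.2 : ℕ) : ℝ) ≤ ((2 ^ (i + 1) : ℕ) : ℝ) := by exact_mod_cast this
        push_cast at h
        rw [pow_succ] at h
        linarith
      have c4 : (p.1 : ℝ) / p.2 - q.1 / q.2 = (p.1 * q.2 - q.1 * p.2) / (p.2 * q.2) := by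
        field_simp
      rw [c4, abs_div, abs_of_pos (by positivity : (0 : ℝ) < p.2 * q.2)]
      apply div_le_div₀ (abs_nonneg _) c3 (by positivity)
      have : (p.2 : ℝ) * q.2 ≤ (2 * 2 ^ i) * (2 * 2 ^ i) :=
        mul_le_mul a4' b4' b6'.le (by positivity)
      nlinarith)
  refine hgap.trans (le_of_eq ?_)
  field_simp
  ring

/-- one class -/
theorem dir_class (m P Q : ℕ) (hm : 0 < m) (hQ : 0 < Q) (S : Finset (ℕ × ℕ))
    (hS : ∀ p ∈ S, 0 < p.1 ∧ p.1 ≤ P ∧ 0 < p.2 ∧ p.2 ≤ Q ∧ Nat.Coprime p.1 p.2)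
    (hcl : ∀ p ∈ S, ∀ q ∈ S, (m : ℤ) ∣ (p.1 : ℤ) * q.2 - q.1 * p.2) :
    (S.card : ℝ) ≤ (Nat.log 2 Q + 1 : ℕ) + 8 * P * Q / m := by
  have hmR : (0 : ℝ) < m := by exact_mod_cast hm
  have hmap : ∀ p ∈ S, Nat.log 2 p.2 ∈ range (Nat.log 2 Q + 1) := by
    intro p hp
    rw [mem_range]
    have := Nat.log_mono_right (b := 2) (hS p hp).2.2.2.1
    omega
  rw [card_eq_sum_card_fiberwise hmap]
  push_cast
  have h1 : ∀ i ∈ range (Nat.log 2 Q + 1),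
      ((S.filter (fun p => Nat.log 2 p.2 = i)).card : ℝ) ≤ 1 + 4 * P * 2 ^ i / m := by
    intro i hi
    apply dir_block m P hm i
    · intro p hp
      rw [mem_filter] at hp
      obtain ⟨a1, a2, a3, a4, a5⟩ := hS p hp.1
      refine ⟨a1, a2, ?_, ?_, a5⟩
      · rw [← hp.2]; exact Nat.pow_log_le_self 2 a3.ne'
      · rw [← hp.2]; exact Nat.lt_pow_succ_log_self (by norm_num) _
    · intro p hp q hq
      exact hcl p (mem_filter.1 hp).1 q (mem_filter.1 hq).1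
  have h2 : (∑ i ∈ range (Nat.log 2 Q + 1), (2 : ℝ) ^ i) ≤ 2 * Q := by
    rw [geom_sum_eq (by norm_num)]
    have h3 : 2 ^ Nat.log 2 Q ≤ Q := Nat.pow_log_le_self 2 hQ.ne'
    have h4 : ((2 ^ Nat.log 2 Q : ℕ) : ℝ) ≤ Q := by exact_mod_cast h3
    push_cast at h4
    rw [pow_succ]
    linarith
  calc _ ≤ ∑ i ∈ range (Nat.log 2 Q + 1), (1 + 4 * (P : ℝ) * 2 ^ i / m) := sum_le_sum h1
    _ = (Nat.log 2 Q + 1 : ℕ) + 4 * P / m * ∑ i ∈ range (Nat.log 2 Q + 1), (2 : ℝ) ^ i := by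
        rw [sum_add_distrib, sum_const, card_range, nsmul_eq_mul, mul_one, mul_sum]
        congr 1
        apply sum_congr rfl
        intro i _
        ring
    _ ≤ (Nat.log 2 Q + 1 : ℕ) + 4 * P / m * (2 * Q) := by
        have : (0 : ℝ) ≤ 4 * P / m := by positivity
        have := mul_le_mul_of_nonneg_left h2 this
        linarith
    _ = ((Nat.log 2 Q : ℝ) + 1) + 8 * P * Q / m := by push_cast; ring

theorem log_le_rpow {ε : ℝ} (hε : 0 < ε) :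
    ∃ C : ℝ, 1 ≤ C ∧ ∀ Q : ℕ, 0 < Q → ((Nat.log 2 Q + 1 : ℕ) : ℝ) ≤ C * (Q : ℝ) ^ ε := by
  refine ⟨1 + 1 / (ε * Real.log 2), ?_, ?_⟩
  · have : 0 < Real.log 2 := Real.log_pos (by norm_num)
    have : 0 < 1 / (ε * Real.log 2) := by positivity
    linarith
  intro Q hQ
  have hl2 : 0 < Real.log 2 := Real.log_pos (by norm_num)
  have hQ1 : (1 : ℝ) ≤ Q := by exact_mod_cast hQ
  have h1 : (1 : ℝ) ≤ (Q : ℝ) ^ ε := Real.one_le_rpow hQ1 hε.le
  have h2 : Real.log Q ≤ (Q : ℝ) ^ ε / ε := Real.log_le_rpow_div (by linarith) hε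
  have h3 : (Nat.log 2 Q : ℝ) ≤ Real.log Q / Real.log 2 := by
    rw [le_div_iff₀ hl2, ← Real.log_pow]
    apply Real.log_le_log (by positivity)
    exact_mod_cast Nat.pow_log_le_self 2 hQ.ne'
  have h4 : Real.log Q / Real.log 2 ≤ (Q : ℝ) ^ ε / ε / Real.log 2 :=
    div_le_div_of_nonneg_right h2 hl2.le
  push_cast
  have h5 : (Q : ℝ) ^ ε / ε / Real.log 2 = 1 / (ε * Real.log 2) * (Q : ℝ) ^ ε := by
    field_simp
  rw [h5] at h4
  nlinarith

/-- DIR -/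
theorem dir {j : ℕ} (hj : 0 < j) {ε : ℝ} (hε : 0 < ε) :
    ∃ C : ℝ, 0 < C ∧ ∀ m : ℕ, 0 < m → ∀ c : ZMod m, ∀ P Q : ℕ, 0 < P → 0 < Q →
      ∀ S : Finset (ℕ × ℕ), (∀ p ∈ S, 0 < p.1 ∧ p.1 ≤ P ∧ 0 < p.2 ∧ p.2 ≤ Q ∧
        Nat.Coprime p.1 p.2 ∧ Nat.Coprime p.1 m ∧ Nat.Coprime p.2 m ∧
        ((p.1 : ℕ) : ZMod m) ^ j = c * ((p.2 : ℕ) : ZMod m) ^ j) →
      (S.card : ℝ) ≤ C * ((m : ℝ) * Q) ^ ε * (1 + (P : ℝ) * Q / m) := by
  classical
  obtain ⟨C1, hC1, h1⟩ := Helper26.Abc2.card_roots hj hε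
  obtain ⟨C2, hC2, h2⟩ := log_le_rpow hε
  refine ⟨C1 * (8 * C2), by positivity, ?_⟩
  intro m hm c P Q hP hQ S hS
  have hmR : (0 : ℝ) < m := by exact_mod_cast hm
  have hQR : (0 : ℝ) < Q := by exact_mod_cast hQ
  have hQ1 : (1 : ℝ) ≤ Q := by exact_mod_cast hQ
  have : NeZero m := ⟨hm.ne'⟩
  set κ : ℕ × ℕ → ZMod m := fun p => ((p.1 : ℕ) : ZMod m) * ((p.2 : ℕ) : ZMod m)⁻¹ with hκ
  have hinv : ∀ p ∈ S, ((p.2 : ℕ) : ZMod m) * ((p.2 : ℕ) : ZMod m)⁻¹ = 1 := by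
    intro p hp
    exact ZMod.coe_mul_inv_eq_one _ (hS p hp).2.2.2.2.2.2.1
  have hκj : ∀ p ∈ S, κ p ^ j = c := by
    intro p hp
    have a := (hS p hp).2.2.2.2.2.2.2
    rw [hκ]
    simp only
    rw [mul_pow, a, mul_assoc, ← mul_pow, hinv p hp, one_pow, mul_one]
  have hI : ((S.image κ).card : ℝ) ≤ C1 * (m : ℝ) ^ ε := by
    rcases S.eq_empty_or_nonempty with h0 | ⟨p0, hp0⟩
    · rw [h0]; simp; positivity
    have hun : IsUnit (κ p0) := by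
      apply IsUnit.mul
      · exact (ZMod.isUnit_iff_coprime _ _).2 (hS p0 hp0).2.2.2.2.2.1
      · exact IsUnit.of_mul_eq_one ((p0.2 : ℕ) : ZMod m) (by rw [mul_comm]; exact hinv p0 hp0)
    have hcop : Nat.Coprime ((κ p0).val ^ j) m := by
      apply Nat.Coprime.pow_left
      rw [← ZMod.isUnit_iff_coprime]
      rw [ZMod.natCast_zmod_val]
      exact hun
    refine le_trans ?_ (h1 m ((κ p0).val ^ j) hm hcop)
    have : (S.image κ).card ≤
        ((range m).filter (fun x => x ^ j ≡ (κ p0).val ^ j [MOD m])).card := by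
      apply card_le_card_of_injOn (fun x => ZMod.val x)
      · intro x hx
        rw [mem_coe, mem_image] at hx
        obtain ⟨p, hp, rfl⟩ := hx
        rw [mem_coe, mem_filter, mem_range]
        refine ⟨ZMod.val_lt _, ?_⟩
        rw [← ZMod.natCast_eq_natCast_iff]
        push_cast
        rw [ZMod.natCast_zmod_val, ZMod.natCast_zmod_val, hκj p hp, hκj p0 hp0]
      · intro x _ y _ hxy
        exact ZMod.val_injective m hxy
    exact_mod_cast this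
  have hfib : ∀ x ∈ S.image κ, ((S.filter (fun p => κ p = x)).card : ℝ) ≤
      (Nat.log 2 Q + 1 : ℕ) + 8 * P * Q / m := by
    intro x hx
    apply dir_class m P Q hm hQ
    · intro p hp
      obtain ⟨a1, a2, a3, a4, a5, -⟩ := hS p (mem_filter.1 hp).1
      exact ⟨a1, a2, a3, a4, a5⟩
    · intro p hp q hq
      rw [mem_filter] at hp hq
      have e1 : ((p.1 : ℕ) : ZMod m) * ((q.2 : ℕ) : ZMod m) =
          ((q.1 : ℕ) : ZMod m) * ((p.2 : ℕ) : ZMod m) := by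
        have e2 : ((p.1 : ℕ) : ZMod m) * ((p.2 : ℕ) : ZMod m)⁻¹ =
          ((q.1 : ℕ) : ZMod m) * ((q.2 : ℕ) : ZMod m)⁻¹ := hp.2.trans hq.2.symm
        have e3 := hinv p hp.1
        have e4 := hinv q hq.1
        linear_combination (((p.2 : ℕ) : ZMod m) * ((q.2 : ℕ) : ZMod m)) * e2 -
          ((p.1 : ℕ) : ZMod m) * ((q.2 : ℕ) : ZMod m) * e3 +
          ((q.1 : ℕ) : ZMod m) * ((p.2 : ℕ) : ZMod m) * e4
      rw [← ZMod.intCast_zmod_eq_zero_iff_dvd]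
      push_cast
      rw [e1, sub_self]
  have hlog := h2 Q hQ
  have hQe : (1 : ℝ) ≤ (Q : ℝ) ^ ε := Real.one_le_rpow hQ1 hε.le
  have hterm : ((Nat.log 2 Q + 1 : ℕ) : ℝ) + 8 * P * Q / m ≤
      8 * C2 * (Q : ℝ) ^ ε * (1 + (P : ℝ) * Q / m) := by
    have a1 : (0 : ℝ) ≤ (P : ℝ) * Q / m := by positivity
    have a2 : (8 : ℝ) * P * Q / m = 8 * (P * Q / m) := by ring
    rw [a2]
    have a3 : 1 ≤ C2 * (Q : ℝ) ^ ε := by nlinarith
    nlinarith
  rw [card_eq_sum_card_image κ S]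
  push_cast at hfib hterm ⊢
  calc _ ≤ ∑ x ∈ S.image κ, ((Nat.log 2 Q + 1 : ℝ) + 8 * P * Q / m) := sum_le_sum hfib
    _ = (S.image κ).card * ((Nat.log 2 Q + 1 : ℝ) + 8 * P * Q / m) := by
        rw [sum_const, nsmul_eq_mul]
    _ ≤ (C1 * (m : ℝ) ^ ε) * (8 * C2 * (Q : ℝ) ^ ε * (1 + (P : ℝ) * Q / m)) := by
        apply mul_le_mul hI hterm (by positivity) (by positivity)
    _ = C1 * (8 * C2) * ((m : ℝ) * Q) ^ ε * (1 + (P : ℝ) * Q / m) := by
        rw [Real.mul_rpow hmR.le hQR.le]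
        ring

end Pool.Agent.Helper76.EN
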