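import Mathlib

/-! Expansions modulo the third power of `ω` for the relations `n ^ e = κ R ^ f` and
`n ^ e R ^ f = κ`. -/

set_option autoImplicit false

namespace Pool.Agent.Helper76.EN

variable {A : Type*} [CommRing A]

/-- the relation `n ^ e = κ R ^ f` (`s = true`) or `n ^ e R ^ f = κ` (`s = false`) -/
def Rel (s : Bool) (e f : ℕ) (κ n R : A) : Prop :=
  if s then n ^ e = κ * R ^ f else n ^ e * R ^ f = κ

theorem pow_expand (ω x n : A) (hω : ω ^ 3 = 0) (e : ℕ) :
    n ^ 2 * (n + ω * x) ^ e =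
      n ^ e * (n ^ 2 + e * n * (ω * x) + (e.choose 2 : ℕ) * (ω ^ 2 * x ^ 2)) := by
  induction e with
  | zero => simp
  | succ e ih =>
    have h1 : (e + 1).choose 2 = e + e.choose 2 := by
      rw [Nat.choose_succ_succ' e 1]
      simp
    rw [h1, pow_succ (n + ω * x) e, pow_succ n e]
    push_cast
    linear_combination (n + ω * x) * ih + (n ^ e * (e.choose 2 : ℕ) * x ^ 3) * hω

theorem two_choose (e : ℕ) : (2 : A) * ((e.choose 2 : ℕ) : A) = e * (e - 1) := by
  induction e with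
  | zero => simp
  | succ e ih =>
    have h1 : (e + 1).choose 2 = e + e.choose 2 := by
      rw [Nat.choose_succ_succ' e 1]
      simp
    rw [h1]
    push_cast
    linear_combination ih

/-- signs -/
def sg (s : Bool) : A := if s then 1 else -1
/-- mixed term -/
def mx (s : Bool) : A := if s then 0 else 1

theorem expand {s : Bool} {e f : ℕ} {κ n R ω x y : A} (hω : ω ^ 3 = 0) (hn : IsUnit n)
    (hR : IsUnit R) (h0 : Rel s e f κ n R) (h1 : Rel s e f κ (n + ω * x) (R + ω * y)) :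
    R ^ 2 * (e * n * (ω * x) + (e.choose 2 : ℕ) * (ω ^ 2 * x ^ 2)) =
      sg s * (n ^ 2 * (f * R * (ω * y) + (f.choose 2 : ℕ) * (ω ^ 2 * y ^ 2))) -
        mx s * (e * f * (n * R) * (ω ^ 2 * (x * y))) := by
  have e1 := pow_expand ω x n hω e
  have e2 := pow_expand ω y R hω f
  cases s with
  | true =>
    simp only [Rel, if_true] at h0 h1
    have h2 : n ^ e * (R ^ 2 * (e * n * (ω * x) + (e.choose 2 : ℕ) * (ω ^ 2 * x ^ 2))) =
        n ^ e * (n ^ 2 * (f * R * (ω * y) + (f.choose 2 : ℕ) * (ω ^ 2 * y ^ 2))) := by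
      have h3 : R ^ 2 * (n ^ 2 * (n + ω * x) ^ e) = n ^ 2 * κ * (R ^ 2 * (R + ω * y) ^ f) := by
        rw [h1]; ring
      rw [e1, e2] at h3
      linear_combination h3 + (n ^ 2 * (R ^ 2 + f * R * (ω * y) +
        (f.choose 2 : ℕ) * (ω ^ 2 * y ^ 2)) * (-1)) * h0
    have h3 := (hn.pow e).mul_left_cancel h2
    simp only [sg, mx, if_true]
    rw [h3]; ring
  | false =>
    simp only [Rel, Bool.false_eq_true, if_false] at h0 h1
    have hu : IsUnit (n ^ e * R ^ f) := (hn.pow e).mul (hR.pow f)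
    have h2 : n ^ e * R ^ f * (R ^ 2 * (e * n * (ω * x) + (e.choose 2 : ℕ) * (ω ^ 2 * x ^ 2))) =
        n ^ e * R ^ f * (-(n ^ 2 * (f * R * (ω * y) + (f.choose 2 : ℕ) * (ω ^ 2 * y ^ 2))) -
        (e * f * (n * R) * (ω ^ 2 * (x * y)))) := by
      have h3 : (n ^ 2 * (n + ω * x) ^ e) * (R ^ 2 * (R + ω * y) ^ f) =
          n ^ 2 * R ^ 2 * (n ^ e * R ^ f) := by
        rw [h0, ← h1]; ring
      rw [e1, e2] at h3
      linear_combination h3 - n ^ e * R ^ f * (e * n * x * ((f.choose 2 : ℕ) * y ^ 2) +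
        (e.choose 2 : ℕ) * x ^ 2 * (f * R * y) +
        (e.choose 2 : ℕ) * x ^ 2 * ((f.choose 2 : ℕ) * y ^ 2) * ω) * hω
    have h3 := hu.mul_left_cancel h2
    simp only [sg, mx, Bool.false_eq_true, if_false]
    rw [h3]; ring

/-- first order relation -/
theorem first {s : Bool} {e f : ℕ} {κ n R ω x y : A} (hω : ω ^ 3 = 0) (hn : IsUnit n)
    (hR : IsUnit R) (h0 : Rel s e f κ n R) (h1 : Rel s e f κ (n + ω * x) (R + ω * y)) :
    e * R * (ω ^ 2 * x) = sg s * (f * n * (ω ^ 2 * y)) := by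
  have h2 := expand hω hn hR h0 h1
  have h3 : n * R * (e * R * (ω ^ 2 * x)) = n * R * (sg s * (f * n * (ω ^ 2 * y))) := by
    have h4 : R ^ 2 * (e * n * (ω ^ 2 * x)) = sg s * (n ^ 2 * (f * R * (ω ^ 2 * y))) := by
      linear_combination ω * h2 - (R ^ 2 * ((e.choose 2 : ℕ) * x ^ 2)) * hω +
        (sg s * (n ^ 2 * ((f.choose 2 : ℕ) * y ^ 2)) -
          mx s * (e * f * (n * R) * (x * y))) * hω
    linear_combination h4
  exact (hn.mul hR).mul_left_cancel h3

/-- injectivity -/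
theorem inj {s : Bool} {e f : ℕ} {κ n R ω y : A} (hω : ω ^ 3 = 0) (hn : IsUnit n)
    (hR : IsUnit R) (hf : IsUnit (f : A)) (h0 : Rel s e f κ n R)
    (h1 : Rel s e f κ n (R + ω * y)) : ω * y = 0 := by
  have h1' : Rel s e f κ (n + ω * 0) (R + ω * y) := by rw [mul_zero, add_zero]; exact h1
  have h2 := expand hω hn hR h0 h1'
  have hs : IsUnit (sg s : A) := by
    cases s <;> simp [sg]
  have h3 : sg s * (n ^ 2 * (f * R * (ω * y) + (f.choose 2 : ℕ) * (ω ^ 2 * y ^ 2))) = 0 := by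
    linear_combination -h2
  have h4 : f * R * (ω * y) + (f.choose 2 : ℕ) * (ω ^ 2 * y ^ 2) = 0 := by
    have h5 : (sg s * n ^ 2) * (f * R * (ω * y) + (f.choose 2 : ℕ) * (ω ^ 2 * y ^ 2)) =
        (sg s * n ^ 2) * 0 := by linear_combination h3
    exact (hs.mul (hn.pow 2)).mul_left_cancel h5
  have h5 : ω ^ 2 * y = 0 := by
    have h6 : (f * R) * (ω ^ 2 * y) = (f * R) * 0 := by
      linear_combination ω * h4 - (f.choose 2 : ℕ) * y ^ 2 * hω
    exact (hf.mul hR).mul_left_cancel h6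
  have h6 : (f * R) * (ω * y) = (f * R) * 0 := by
    linear_combination h4 - (f.choose 2 : ℕ) * y * h5
  exact (hf.mul hR).mul_left_cancel h6

/-- second difference -/
theorem second {s : Bool} {e f : ℕ} {κ n R ω x y x' y' : A} (hω : ω ^ 3 = 0) (hn : IsUnit n)
    (hR : IsUnit R) (he : IsUnit (e : A))
    (hef : IsUnit ((e : A) - sg s * f)) (h0 : Rel s e f κ n R)
    (h1 : Rel s e f κ (n + ω * x) (R + ω * y))
    (h2 : Rel s e f κ (n + ω * x') (R + ω * y'))
    (h3 : Rel s e f κ (n + ω * (x + x')) (R + ω * (y + y'))) :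
    ω ^ 2 * (x * x') = 0 := by
  have e1 := expand hω hn hR h0 h1
  have e2 := expand hω hn hR h0 h2
  have e3 := expand hω hn hR h0 h3
  have f1 := first hω hn hR h0 h1
  have f2 := first hω hn hR h0 h2
  have c1 := two_choose (A := A) e
  have c2 := two_choose (A := A) f
  have hss : (sg s : A) * sg s = 1 := by cases s <;> simp [sg]
  have hsm : (mx s : A) * 2 = 1 - sg s := by
    cases s <;> simp [sg, mx]
    ring
  -- second difference
  have g1 : R ^ 2 * (e * (e - 1)) * (ω ^ 2 * (x * x')) =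
      sg s * (n ^ 2 * (f * (f - 1)) * (ω ^ 2 * (y * y'))) -
      mx s * (e * f * (n * R) * (ω ^ 2 * (x * y' + x' * y))) := by
    linear_combination e3 - e1 - e2 - R ^ 2 * (ω ^ 2 * (x * x')) * c1 +
      sg s * n ^ 2 * (ω ^ 2 * (y * y')) * c2
  -- replace y, y'
  have g2 : f * n * (ω ^ 2 * y) = sg s * (e * R * (ω ^ 2 * x)) := by
    linear_combination -sg s * f1 + (- f * n * (ω ^ 2 * y)) * hss
  have g3 : f * n * (ω ^ 2 * y') = sg s * (e * R * (ω ^ 2 * x')) := by
    linear_combination -sg s * f2 + (- f * n * (ω ^ 2 * y')) * hss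
  have g4 : f * n * (f * n) * (ω ^ 2 * (y * y')) = e * R * (e * R) * (ω ^ 2 * (x * x')) := by
    linear_combination (f * n * y') * g2 + (sg s * e * R * x) * g3 +
      (e * R * (e * R) * (ω ^ 2 * (x * x'))) * hss
  have g5 : f * n * (ω ^ 2 * (x * y' + x' * y)) =
      2 * (sg s * (e * R * (ω ^ 2 * (x * x')))) := by
    linear_combination x * g3 + x' * g2
  have g6 : (e * (e - sg s * f)) * R ^ 2 * (ω ^ 2 * (x * x')) =
      (e * (e - sg s * f)) * R ^ 2 * 0 := by
    linear_combination sg s * (f * g1 + sg s * (f - 1) * g4 - mx s * e * f * R * g5 -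
      sg s * e ^ 2 * f * R ^ 2 * (ω ^ 2 * (x * x')) * hsm +
      R ^ 2 * (ω ^ 2 * (x * x')) * e ^ 2 * f * hss) - R ^ 2 * (ω ^ 2 * (x * x')) * e ^ 2 * hss
  exact ((he.mul hef).mul (hR.pow 2)).mul_left_cancel g6

end Pool.Agent.Helper76.EN
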