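import Mathlib
import Pool.Agent.Helper76.EN.Class
import Pool.Agent.Helper76.EN.Ring
import Pool.Agent.Helper26.Abc2.Roots

/-! T1: curves modulo `w ^ 3` (section 4 of EN). -/

set_option autoImplicit false

open Finset

namespace Pool.Agent.Helper76.EN

/-- `e - f` for the relation `n ^ e = κ R ^ f`, `e + f` for `n ^ e R ^ f = κ` -/
def dz (s : Bool) (e f : ℕ) : ℤ := if s then (e : ℤ) - f else e + f

theorem unit_of_coprime {z : ℤ} {w m : ℕ} (h : IsCoprime z (w : ℤ)) (k : ℕ) (hm : m = w ^ k) :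
    IsUnit ((z : ℤ) : ZMod m) := by
  subst hm
  have h1 : IsCoprime z ((w : ℤ) ^ k) := h.pow_right
  obtain ⟨a, b, hab⟩ := h1
  have h2 : ((a : ℤ) : ZMod (w ^ k)) * (z : ZMod (w ^ k)) = 1 := by
    have h3 : (((a * z + b * (w : ℤ) ^ k : ℤ)) : ZMod (w ^ k)) = 1 := by
      rw [hab]; simp
    push_cast at h3
    have h4 : ((w : ZMod (w ^ k))) ^ k = 0 := by
      have := ZMod.natCast_self (w ^ k)
      push_cast at this
      exact this
    rw [h4, mul_zero, add_zero] at h3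
    exact h3
  exact IsUnit.of_mul_eq_one _ (by rw [mul_comm]; exact h2)

theorem omega_cube (w : ℕ) : ((w : ℕ) : ZMod (w ^ 3)) ^ 3 = 0 := by
  have := ZMod.natCast_self (w ^ 3)
  push_cast at this
  exact this

theorem dvd_of_sq {w : ℕ} (hw : 0 < w) {z : ℤ}
    (h : ((w : ℕ) : ZMod (w ^ 3)) ^ 2 * ((z : ℤ) : ZMod (w ^ 3)) = 0) : (w : ℤ) ∣ z := by
  have h1 : (((w : ℤ) ^ 2 * z : ℤ) : ZMod (w ^ 3)) = 0 := by
    push_cast
    exact h
  rw [ZMod.intCast_zmod_eq_zero_iff_dvd] at h1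
  obtain ⟨k, hk⟩ := h1
  have hwZ : (w : ℤ) ≠ 0 := by exact_mod_cast hw.ne'
  refine ⟨k, ?_⟩
  have h2 : (w : ℤ) ^ 2 * z = (w : ℤ) ^ 2 * (w * k) := by
    rw [hk]; push_cast; ring
  exact mul_left_cancel₀ (pow_ne_zero 2 hwZ) h2

/-- One residue class. -/
theorem one_class (s : Bool) (e f : ℕ) {w : ℕ} (hw : 0 < w)
    (he : IsCoprime (e : ℤ) (w : ℤ)) (hf : IsCoprime (f : ℤ) (w : ℤ))
    (hef : IsCoprime (dz s e f) (w : ℤ)) (κ : ZMod (w ^ 3)) (S : Finset (ℕ × ℕ))
    (N0 A M0 : ℕ) (hA : A ≤ w ^ 2)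
    (hS : ∀ p ∈ S, N0 ≤ p.1 ∧ p.1 < N0 + A ∧ M0 ≤ p.2 ∧ p.2 < M0 + w ^ 2 ∧
      Nat.Coprime p.1 w ∧ Nat.Coprime p.2 w ∧
      Rel s e f κ ((p.1 : ℕ) : ZMod (w ^ 3)) ((p.2 : ℕ) : ZMod (w ^ 3)))
    (hcl : ∀ p ∈ S, ∀ q ∈ S, (w : ℤ) ∣ (q.1 : ℤ) - p.1 ∧ (w : ℤ) ∣ (q.2 : ℤ) - p.2) :
    (S.card : ℝ) ≤ 1 + Real.sqrt (12 * ((A : ℝ) / w) * w.divisors.card) := by
  classical
  have hω := omega_cube w
  have hwZ : (0 : ℤ) < w := by exact_mod_cast hw
  have ue : IsUnit ((e : ℕ) : ZMod (w ^ 3)) := by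
    have := unit_of_coprime he 3 rfl
    simpa using this
  have uf : IsUnit ((f : ℕ) : ZMod (w ^ 3)) := by
    have := unit_of_coprime hf 3 rfl
    simpa using this
  have uef : IsUnit (((e : ℕ) : ZMod (w ^ 3)) - sg s * ((f : ℕ) : ZMod (w ^ 3))) := by
    have := unit_of_coprime hef 3 rfl
    cases s with
    | true =>
      simp only [dz, if_true] at this
      push_cast at this
      simpa [sg] using this
    | false =>
      simp only [dz, Bool.false_eq_true, if_false] at this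
      push_cast at this
      simpa [sg, sub_neg_eq_add] using this
  have un : ∀ n : ℕ, Nat.Coprime n w → IsUnit ((n : ℕ) : ZMod (w ^ 3)) := by
    intro n hn
    rw [ZMod.isUnit_iff_coprime]
    exact hn.pow_right 3
  set S' : Finset (ℤ × ℤ) := S.image (fun p => ((p.1 : ℤ), (p.2 : ℤ))) with hS'
  have hcard : S'.card = S.card := by
    rw [hS']
    apply card_image_of_injective
    intro p q hpq
    simp only [Prod.mk.injEq, Nat.cast_inj] at hpq
    exact Prod.ext hpq.1 hpq.2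
  -- difference data
  have hdiff : ∀ p ∈ S, ∀ q ∈ S, ∃ x y : ℤ, (q.1 : ℤ) - p.1 = w * x ∧ (q.2 : ℤ) - p.2 = w * y ∧
      ((q.1 : ℕ) : ZMod (w ^ 3)) = ((p.1 : ℕ) : ZMod (w ^ 3)) + ((w : ℕ) : ZMod (w ^ 3)) * (x : ZMod (w ^ 3)) ∧
      ((q.2 : ℕ) : ZMod (w ^ 3)) = ((p.2 : ℕ) : ZMod (w ^ 3)) + ((w : ℕ) : ZMod (w ^ 3)) * (y : ZMod (w ^ 3)) := by
    intro p hp q hq
    obtain ⟨⟨x, hx⟩, ⟨y, hy⟩⟩ := hcl p hp q hq
    refine ⟨x, y, hx, hy, ?_, ?_⟩
    · have h1 : ((q.1 : ℤ)) = (p.1 : ℤ) + w * x := by linarith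
      have h2 := congrArg (fun t : ℤ => (t : ZMod (w ^ 3))) h1
      push_cast at h2
      exact h2
    · have h1 : ((q.2 : ℤ)) = (p.2 : ℤ) + w * y := by linarith
      have h2 := congrArg (fun t : ℤ => (t : ZMod (w ^ 3))) h1
      push_cast at h2
      exact h2
  rw [← hcard]
  apply class_count hw S' (N0 : ℤ) A hA
  · intro p hp
    rw [hS', mem_image] at hp
    obtain ⟨a, ha, rfl⟩ := hp
    have := hS a ha
    simp only
    constructor
    · exact_mod_cast this.1
    · exact_mod_cast this.2.1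
  · intro p hp q hq
    rw [hS', mem_image] at hp hq
    obtain ⟨a, ha, rfl⟩ := hp
    obtain ⟨b, hb, rfl⟩ := hq
    exact (hcl a ha b hb).1
  · -- injectivity
    intro p hp q hq hpq
    rw [hS', mem_image] at hp hq
    obtain ⟨a, ha, rfl⟩ := hp
    obtain ⟨b, hb, rfl⟩ := hq
    simp only [Nat.cast_inj] at hpq
    obtain ⟨x, y, hx, hy, -, hy2⟩ := hdiff a ha b hb
    obtain ⟨-, -, ha3, ha4, ha5, ha6, ha7⟩ := hS a ha
    obtain ⟨-, -, hb3, hb4, hb5, hb6, hb7⟩ := hS b hb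
    rw [← hpq, hy2] at hb7
    have h1 := inj hω (un _ ha5) (un _ ha6) uf ha7 hb7
    have h2 : (((w : ℤ) * y : ℤ) : ZMod (w ^ 3)) = 0 := by
      push_cast; exact h1
    rw [ZMod.intCast_zmod_eq_zero_iff_dvd, ← hy] at h2
    have h3 : (b.2 : ℤ) - a.2 = 0 := by
      apply Int.eq_zero_of_abs_lt_dvd h2
      have h4 : |(b.2 : ℤ) - a.2| < (w : ℤ) ^ 2 := by
        rw [abs_lt]
        constructor
        · have : (a.2 : ℤ) < M0 + (w : ℤ) ^ 2 := by exact_mod_cast ha4
          have : (M0 : ℤ) ≤ b.2 := by exact_mod_cast hb3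
          linarith
        · have : (b.2 : ℤ) < M0 + (w : ℤ) ^ 2 := by exact_mod_cast hb4
          have : (M0 : ℤ) ≤ a.2 := by exact_mod_cast ha3
          linarith
      have h5 : (w : ℤ) ^ 2 ≤ ((w ^ 3 : ℕ) : ℤ) := by
        push_cast
        exact pow_le_pow_right₀ (by linarith) (by norm_num)
      linarith
    have h6 : a.2 = b.2 := by
      have : (a.2 : ℤ) = b.2 := by linarith
      exact_mod_cast this
    rw [hpq, h6]
  · -- first order
    intro p hp q hq p' hp' q' hq' hxx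
    rw [hS', mem_image] at hp hq hp' hq'
    obtain ⟨a, ha, rfl⟩ := hp
    obtain ⟨b, hb, rfl⟩ := hq
    obtain ⟨a', ha', rfl⟩ := hp'
    obtain ⟨b', hb', rfl⟩ := hq'
    simp only at hxx ⊢
    obtain ⟨x, y, hx, hy, hx2, hy2⟩ := hdiff a ha b hb
    obtain ⟨x', y', hx', hy', hx2', hy2'⟩ := hdiff a' ha' b' hb'
    obtain ⟨u, v, hu, hv, hu2, hv2⟩ := hdiff a ha a' ha'
    have hxx' : x = x' := by
      rw [hx, hx'] at hxx
      exact mul_left_cancel₀ hwZ.ne' hxx
    obtain ⟨-, -, ha3, ha4, ha5, ha6, ha7⟩ := hS a ha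
    obtain ⟨-, -, hb3, hb4, hb5, hb6, hb7⟩ := hS b hb
    obtain ⟨-, -, hc3, hc4, hc5, hc6, hc7⟩ := hS a' ha'
    obtain ⟨-, -, hd3, hd4, hd5, hd6, hd7⟩ := hS b' hb'
    rw [hx2, hy2] at hb7
    rw [hx2', hy2'] at hd7
    have f1 := first hω (un _ ha5) (un _ ha6) ha7 hb7
    have f2 := first hω (un _ hc5) (un _ hc6) hc7 hd7
    rw [← hxx'] at f2
    have us : IsUnit (sg s : ZMod (w ^ 3)) := by cases s <;> simp [sg]
    have h1 : ((w : ℕ) : ZMod (w ^ 3)) ^ 2 * ((y' : ZMod (w ^ 3)) - y) = 0 := by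
      have h2 : (sg s * (((f : ℕ) : ZMod (w ^ 3)) * ((a.1 : ℕ) : ZMod (w ^ 3)))) *
          (((w : ℕ) : ZMod (w ^ 3)) ^ 2 * ((y' : ZMod (w ^ 3)) - y)) =
          (sg s * (((f : ℕ) : ZMod (w ^ 3)) * ((a.1 : ℕ) : ZMod (w ^ 3)))) * 0 := by
        rw [hu2, hv2] at f2
        linear_combination f1 - f2 + (((e : ℕ) : ZMod (w ^ 3)) * v * x -
          sg s * ((f : ℕ) : ZMod (w ^ 3)) * u * y') * hω
      exact (us.mul (uf.mul (un _ ha5))).mul_left_cancel h2
    have h3 : (w : ℤ) ∣ y' - y := by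
      apply dvd_of_sq hw
      push_cast
      exact h1
    rw [hy, hy']
    obtain ⟨k, hk⟩ := h3
    exact ⟨k, by linear_combination (w : ℤ) * hk⟩
  · intro p hp q hq
    rw [hS', mem_image] at hp hq
    obtain ⟨a, ha, rfl⟩ := hp
    obtain ⟨b, hb, rfl⟩ := hq
    obtain ⟨-, -, ha3, ha4, -⟩ := hS a ha
    obtain ⟨-, -, hb3, hb4, -⟩ := hS b hb
    simp only
    rw [abs_lt]
    constructor
    · have : (a.2 : ℤ) < M0 + (w : ℤ) ^ 2 := by exact_mod_cast ha4
      have : (M0 : ℤ) ≤ b.2 := by exact_mod_cast hb3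
      linarith
    · have : (b.2 : ℤ) < M0 + (w : ℤ) ^ 2 := by exact_mod_cast hb4
      have : (M0 : ℤ) ≤ a.2 := by exact_mod_cast ha3
      linarith
  · -- second difference
    intro p hp q hq p' hp' q' hq' hxx hyy
    rw [hS', mem_image] at hp hq hp' hq'
    obtain ⟨a, ha, rfl⟩ := hp
    obtain ⟨b, hb, rfl⟩ := hq
    obtain ⟨a', ha', rfl⟩ := hp'
    obtain ⟨b', hb', rfl⟩ := hq'
    simp only at hxx hyy ⊢
    obtain ⟨x, y, hx, hy, hx2, hy2⟩ := hdiff a ha b hb
    obtain ⟨x', y', hx', hy', hx2', hy2'⟩ := hdiff a' ha' b' hb'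
    obtain ⟨u, v, hu, hv, hu2, hv2⟩ := hdiff a ha a' ha'
    have hxx' : x' = x := by
      rw [hx, hx'] at hxx
      exact (mul_left_cancel₀ hwZ.ne' hxx).symm
    have hyy' : y' = y := by
      rw [hy, hy'] at hyy
      exact (mul_left_cancel₀ hwZ.ne' hyy).symm
    obtain ⟨-, -, ha3, ha4, ha5, ha6, ha7⟩ := hS a ha
    obtain ⟨-, -, hb3, hb4, hb5, hb6, hb7⟩ := hS b hb
    obtain ⟨-, -, hc3, hc4, hc5, hc6, hc7⟩ := hS a' ha'
    obtain ⟨-, -, hd3, hd4, hd5, hd6, hd7⟩ := hS b' hb'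
    rw [hx2, hy2] at hb7
    rw [hx2', hy2', hu2, hv2, hxx', hyy'] at hd7
    rw [hu2, hv2] at hc7
    have h3 : Rel s e f κ (((a.1 : ℕ) : ZMod (w ^ 3)) + ((w : ℕ) : ZMod (w ^ 3)) *
        ((x : ZMod (w ^ 3)) + (u : ZMod (w ^ 3)))) (((a.2 : ℕ) : ZMod (w ^ 3)) +
        ((w : ℕ) : ZMod (w ^ 3)) * ((y : ZMod (w ^ 3)) + (v : ZMod (w ^ 3)))) := by
      convert hd7 using 1 <;> ring
    have h4 := second hω (un _ ha5) (un _ ha6) ue uef ha7 hb7 hc7 h3
    have h5 : (w : ℤ) ∣ x * u := by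
      apply dvd_of_sq hw
      push_cast
      exact h4
    rw [hx, hu]
    obtain ⟨k, hk⟩ := h5
    exact ⟨k, by linear_combination (w : ℤ) ^ 2 * hk⟩

/-- T1. -/
theorem T1 (s : Bool) (e f : ℕ) (he0 : 0 < e) {ε : ℝ} (hε : 0 < ε) :
    ∃ C : ℝ, 0 < C ∧ ∀ w : ℕ, 0 < w → IsCoprime (e : ℤ) (w : ℤ) → IsCoprime (f : ℤ) (w : ℤ) →
      IsCoprime (dz s e f) (w : ℤ) → ∀ κ : ZMod (w ^ 3), ∀ S : Finset (ℕ × ℕ),
      ∀ N0 A M0 : ℕ, A ≤ w ^ 2 →
      (∀ p ∈ S, N0 ≤ p.1 ∧ p.1 < N0 + A ∧ M0 ≤ p.2 ∧ p.2 < M0 + w ^ 2 ∧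
        Nat.Coprime p.1 w ∧ Nat.Coprime p.2 w ∧
        Rel s e f κ ((p.1 : ℕ) : ZMod (w ^ 3)) ((p.2 : ℕ) : ZMod (w ^ 3))) →
      (S.card : ℝ) ≤ C * (w : ℝ) ^ ε * (w + Real.sqrt (w * A)) := by
  classical
  obtain ⟨C1, hC1, h1⟩ := Helper26.Abc2.card_roots he0 (ε := ε / 2) (by positivity)
  obtain ⟨C2, hC2, h2⟩ := Helper94.Abc.divisor_bound (ε := ε) hε
  refine ⟨C1 * (1 + Real.sqrt (12 * C2)), by positivity, ?_⟩
  intro w hw he hf hef κ S N0 A M0 hA hS
  have hwR : (0 : ℝ) < w := by exact_mod_cast hw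
  have hw1 : (1 : ℝ) ≤ w := by exact_mod_cast hw
  set cl : ℕ × ℕ → ℕ × ℕ := fun p => (p.1 % w, p.2 % w) with hcl
  -- number of classes
  have hI : ((S.image cl).card : ℝ) ≤ w * (C1 * (w : ℝ) ^ (ε / 2)) := by
    have hfib : ∀ r ∈ range w, (((S.image cl).filter (fun c => c.2 = r)).card : ℝ) ≤
        C1 * (w : ℝ) ^ (ε / 2) := by
      intro r hr
      set F := (S.image cl).filter (fun c => c.2 = r) with hF
      rcases F.eq_empty_or_nonempty with h0 | ⟨c0, hc0⟩
      · rw [h0]; simp; positivity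
      rw [hF, mem_filter, mem_image] at hc0
      obtain ⟨⟨p0, hp0, rfl⟩, hr0⟩ := hc0
      obtain ⟨-, -, -, -, a5, a6, a7⟩ := hS p0 hp0
      have hcop : Nat.Coprime (p0.1 ^ e) w := a5.pow_left e
      refine le_trans ?_ (h1 w (p0.1 ^ e) hw hcop)
      have hsub : F.card ≤ ((range w).filter (fun x => x ^ e ≡ p0.1 ^ e [MOD w])).card := by
        apply card_le_card_of_injOn (fun c => c.1)
        · intro c hc
          rw [mem_coe, hF, mem_filter, mem_image] at hc
          obtain ⟨⟨p, hp, rfl⟩, hr1⟩ := hc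
          obtain ⟨-, -, -, -, b5, b6, b7⟩ := hS p hp
          rw [mem_coe, mem_filter, mem_range]
          refine ⟨Nat.mod_lt _ hw, ?_⟩
          have hdvd : w ∣ w ^ 3 := dvd_pow_self w (by norm_num)
          set g := ZMod.castHom hdvd (ZMod w) with hg
          have a8 : Rel s e f (g κ) ((p0.1 : ℕ) : ZMod w) ((p0.2 : ℕ) : ZMod w) := by
            unfold Rel at a7 ⊢
            cases s with
            | true =>
              simp only [if_true] at a7 ⊢
              have := congrArg g a7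
              rw [map_mul, map_pow, map_pow, map_natCast, map_natCast] at this
              exact this
            | false =>
              simp only [Bool.false_eq_true, if_false] at a7 ⊢
              have := congrArg g a7
              rw [map_mul, map_pow, map_pow, map_natCast, map_natCast] at this
              exact this
          have b8 : Rel s e f (g κ) ((p.1 : ℕ) : ZMod w) ((p.2 : ℕ) : ZMod w) := by
            unfold Rel at b7 ⊢
            cases s with
            | true =>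
              simp only [if_true] at b7 ⊢
              have := congrArg g b7
              rw [map_mul, map_pow, map_pow, map_natCast, map_natCast] at this
              exact this
            | false =>
              simp only [Bool.false_eq_true, if_false] at b7 ⊢
              have := congrArg g b7
              rw [map_mul, map_pow, map_pow, map_natCast, map_natCast] at this
              exact this
          have hR : ((p.2 : ℕ) : ZMod w) = ((p0.2 : ℕ) : ZMod w) := by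
            rw [ZMod.natCast_eq_natCast_iff]
            have : p.2 % w = p0.2 % w := hr1.trans hr0.symm
            exact this
          have hE : ((p.1 : ℕ) : ZMod w) ^ e = ((p0.1 : ℕ) : ZMod w) ^ e := by
            cases s with
            | true =>
              simp only [Rel, if_true] at a8 b8
              rw [a8, b8, hR]
            | false =>
              simp only [Rel, Bool.false_eq_true, if_false] at a8 b8
              rw [hR, ← a8] at b8
              have hu : IsUnit (((p0.2 : ℕ) : ZMod w) ^ f) :=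
                ((ZMod.isUnit_iff_coprime p0.2 w).2 a6).pow f
              exact hu.mul_right_cancel b8
          rw [← ZMod.natCast_eq_natCast_iff]
          push_cast
          rw [← hE]
          congr 1
          rw [ZMod.natCast_eq_natCast_iff]
          exact Nat.mod_modEq _ _
        · intro c hc c' hc' hcc
          rw [mem_coe, hF, mem_filter] at hc hc'
          exact Prod.ext hcc (hc.2.trans hc'.2.symm)
      exact_mod_cast hsub
    have hmap : ∀ c ∈ S.image cl, c.2 ∈ range w := by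
      intro c hc
      rw [mem_image] at hc
      obtain ⟨p, hp, rfl⟩ := hc
      exact mem_range.2 (Nat.mod_lt _ hw)
    rw [card_eq_sum_card_fiberwise hmap]
    push_cast
    calc _ ≤ ∑ r ∈ range w, C1 * (w : ℝ) ^ (ε / 2) := sum_le_sum hfib
      _ = w * (C1 * (w : ℝ) ^ (ε / 2)) := by
        rw [sum_const, card_range, nsmul_eq_mul]
  -- every class
  set Z : ℝ := Real.sqrt (12 * ((A : ℝ) / w) * w.divisors.card) with hZ
  have hfib2 : ∀ c ∈ S.image cl, ((S.filter (fun p => cl p = c)).card : ℝ) ≤ 1 + Z := by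
    intro c hc
    apply one_class s e f hw he hf hef κ _ N0 A M0 hA
    · intro p hp
      exact hS p (mem_filter.1 hp).1
    · intro p hp q hq
      have hp' := (mem_filter.1 hp).2
      have hq' := (mem_filter.1 hq).2
      have h3 := hp'.trans hq'.symm
      simp only [hcl, Prod.mk.injEq] at h3
      constructor
      · exact (Nat.modEq_iff_dvd.1 h3.1)
      · exact (Nat.modEq_iff_dvd.1 h3.2)
  have hS2 : (S.card : ℝ) ≤ (S.image cl).card * (1 + Z) := by
    rw [card_eq_sum_card_image cl S]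
    push_cast
    calc _ ≤ ∑ c ∈ S.image cl, (1 + Z) := sum_le_sum hfib2
      _ = (S.image cl).card * (1 + Z) := by rw [sum_const, nsmul_eq_mul]
  have hZ0 : 0 ≤ Z := Real.sqrt_nonneg _
  have hZle : w * Z ≤ Real.sqrt (12 * C2) * (w : ℝ) ^ (ε / 2) * Real.sqrt (w * A) := by
    have e1 : (w : ℝ) * Z = Real.sqrt ((w : ℝ) ^ 2 * (12 * ((A : ℝ) / w) * w.divisors.card)) := by
      rw [Real.sqrt_mul (by positivity), Real.sqrt_sq hwR.le]
    have e2 : (w : ℝ) ^ (ε / 2) = Real.sqrt ((w : ℝ) ^ ε) := by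
      rw [Real.sqrt_eq_rpow, ← Real.rpow_mul hwR.le]
      congr 1
      ring
    rw [e1, e2, ← Real.sqrt_mul (by positivity), ← Real.sqrt_mul (by positivity)]
    apply Real.sqrt_le_sqrt
    have e3 := h2 w hw.ne'
    have e4 : (w : ℝ) ^ 2 * (12 * ((A : ℝ) / w) * w.divisors.card) =
        12 * (w.divisors.card : ℝ) * (w * A) := by
      field_simp
    rw [e4]
    have e5 : (0 : ℝ) ≤ w * A := by positivity
    nlinarith
  have hw2 : (1 : ℝ) ≤ (w : ℝ) ^ (ε / 2) := Real.one_le_rpow hw1 (by positivity)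
  have hww : (w : ℝ) ^ ε = (w : ℝ) ^ (ε / 2) * (w : ℝ) ^ (ε / 2) := by
    rw [← Real.rpow_add hwR]
    congr 1
    ring
  set W := (w : ℝ) ^ (ε / 2) with hW
  have hQ : 0 ≤ Real.sqrt (w * A) := Real.sqrt_nonneg _
  have hK : 0 ≤ Real.sqrt (12 * C2) := Real.sqrt_nonneg _
  calc (S.card : ℝ) ≤ (S.image cl).card * (1 + Z) := hS2
    _ ≤ (w * (C1 * W)) * (1 + Z) := mul_le_mul_of_nonneg_right hI (by linarith)
    _ = C1 * W * (w + w * Z) := by ring
    _ ≤ C1 * W * (w + Real.sqrt (12 * C2) * W * Real.sqrt (w * A)) := by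
        apply mul_le_mul_of_nonneg_left _ (by positivity)
        linarith
    _ ≤ C1 * (1 + Real.sqrt (12 * C2)) * (W * W) * (w + Real.sqrt (w * A)) := by
        set Q := Real.sqrt (w * A)
        set K := Real.sqrt (12 * C2)
        have a1 : (w : ℝ) ≤ (1 + K) * W * w := by
          have : 1 ≤ (1 + K) * W := by nlinarith
          nlinarith
        have a2 : K * W * Q ≤ (1 + K) * W * Q := by
          have : K * W ≤ (1 + K) * W := by nlinarith
          exact mul_le_mul_of_nonneg_right this hQ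
        have a3 : w + K * W * Q ≤ (1 + K) * W * (w + Q) := by nlinarith
        have a4 : 0 ≤ C1 * W := by positivity
        nlinarith [mul_le_mul_of_nonneg_left a3 a4]
    _ = C1 * (1 + Real.sqrt (12 * C2)) * (w : ℝ) ^ ε * (w + Real.sqrt (w * A)) := by
        rw [hww]

end Pool.Agent.Helper76.EN
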